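import Mathlib

namespace Pool.Agent.H.MP_78fc4b_an
open Filter Topology

universe u

/-- absolutely strongly exposing operators (real scalars) -/
def IsASE {X : Type} {Y : Type u} [NormedAddCommGroup X] [NormedSpace ℝ X] [NormedAddCommGroup Y]
    [NormedSpace ℝ Y] (T : X →L[ℝ] Y) : Prop :=
  ∃ x₀ : X, ‖x₀‖ = 1 ∧ ∀ x : ℕ → X, (∀ n, ‖x n‖ ≤ 1) →
    Tendsto (fun n => ‖T (x n)‖) atTop (𝓝 ‖T‖) → ∃ σ : ℕ → ℕ, StrictMono σ ∧ ∃ l : ℝ, |l| = 1 ∧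
      Tendsto (fun n => x (σ n)) atTop (𝓝 (l • x₀))

/-- the pair `(X, Y)` has the BPBp-ASE -/
def BPBASE (X : Type) (Y : Type u) [NormedAddCommGroup X] [NormedSpace ℝ X] [NormedAddCommGroup Y]
    [NormedSpace ℝ Y] : Prop :=
  ∀ ε : ℝ, 0 < ε → ∃ η : ℝ, 0 < η ∧ η < ε ∧ ∀ T : X →L[ℝ] Y, ‖T‖ = 1 → ∀ x : X, ‖x‖ = 1 →
    1 - η < ‖T x‖ → ∃ S : X →L[ℝ] Y, IsASE S ∧ ∃ x₀ : X, ‖x₀‖ = 1 ∧ ‖S‖ = 1 ∧ ‖S x₀‖ = 1 ∧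
      ‖S - T‖ < ε ∧ ‖x - x₀‖ < ε

/-- uniform convexity -/
def UC (X : Type) [NormedAddCommGroup X] : Prop :=
  ∀ ε : ℝ, 0 < ε → ∃ δ : ℝ, 0 < δ ∧ δ < 1 ∧ ∀ x₁ x₂ : X, ‖x₁‖ = 1 → ‖x₂‖ = 1 →
    1 - δ < ‖x₁ + x₂‖ / 2 → ‖x₁ - x₂‖ < ε

end Pool.Agent.H.MP_78fc4b_an
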