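import Mathlib
import Pool.Agent.H.MP_78fc4b_an.Defs

namespace Pool.Agent.H.MP_78fc4b_an
open Filter Topology Metric Set

universe u

variable {X : Type} [NormedAddCommGroup X] [NormedSpace ℝ X]

def Good (m : X) : Prop := ∀ ε > 0, ∃ (R : X →L[ℝ] X) (v₀ : X), (∀ v, ‖R v - v‖ ≤ ε * ‖v‖) ∧
  ‖v₀ - m‖ ≤ ε ∧ ‖v₀‖ = 1 ∧ R v₀ = m ∧ (∀ v, ‖R v‖ ≤ ‖v‖) ∧
  ∀ v, ‖v‖ = 1 → ‖R v‖ = 1 → v = v₀ ∨ v = -v₀

lemma good_exp {m : X} (hm : ‖m‖ = 1) (φ : X →L[ℝ] ℝ) (h1 : ∀ v, |φ v| ≤ ‖v‖) (h2 : φ m = 1)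
    (h3 : ∀ v, ‖v‖ = 1 → φ v = 1 → v = m) : Good m := by
  intro ε hε
  set c := ε / 2 with hc
  have hc0 : 0 < c := half_pos hε
  have hc1 : 0 < (1 + c)⁻¹ := by positivity
  have hc2 : (1 + c)⁻¹ * (1 + c) = 1 := inv_mul_cancel₀ (by positivity)
  have hR : ∀ v, ‖(1 + c)⁻¹ • (v + (c * φ v) • m)‖ ≤ (1 + c)⁻¹ * (‖v‖ + c * |φ v|) := by
    intro v
    rw [norm_smul, Real.norm_eq_abs, abs_of_pos hc1]
    refine mul_le_mul_of_nonneg_left ((norm_add_le _ _).trans ?_) hc1.le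
    rw [norm_smul, hm, Real.norm_eq_abs, abs_mul, abs_of_pos hc0, mul_one]
  refine ⟨(1 + c)⁻¹ • (ContinuousLinearMap.id ℝ X + (c • φ).smulRight m), m, fun v => ?_, by
    simp [hε.le], hm, ?_, fun v => ?_, fun v hv h => ?_⟩
  · change ‖(1 + c)⁻¹ • (v + (c * φ v) • m) - v‖ ≤ _
    have e : (1 + c)⁻¹ • (v + (c * φ v) • m) - v = ((1 + c)⁻¹ * c) • (φ v • m - v) := by
      match_scalars <;> field_simp <;> ring
    rw [e, norm_smul, Real.norm_eq_abs, abs_of_pos (by positivity)]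
    have h4 := norm_sub_le (φ v • m) v
    rw [norm_smul, hm, Real.norm_eq_abs] at h4
    have h5 : (1 + c)⁻¹ * c ≤ c := by nlinarith
    have h6 := mul_le_mul h5 (h4.trans (by linarith [h1 v] : _ ≤ 2 * ‖v‖)) (norm_nonneg _) hc0.le
    exact h6.trans (le_of_eq (by rw [hc]; ring))
  · change (1 + c)⁻¹ • (m + (c * φ m) • m) = m
    rw [h2]
    match_scalars; field_simp
  · refine (hR v).trans ?_
    have := mul_le_mul_of_nonneg_left (show ‖v‖ + c * |φ v| ≤ (1 + c) * ‖v‖ by nlinarith [h1 v]) hc1.le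
    rwa [← mul_assoc, hc2, one_mul] at this
  · have h4 := hR v
    rw [show ‖(1 + c)⁻¹ • (v + (c * φ v) • m)‖ = 1 from h, hv, le_inv_mul_iff₀ (by positivity)] at h4
    have h5 : |φ v| = 1 := le_antisymm (hv ▸ h1 v) (by nlinarith)
    rcases (abs_eq zero_le_one).1 h5 with h6 | h6
    · exact Or.inl (h3 v hv h6)
    · exact Or.inr (neg_eq_iff_eq_neg.1 (h3 (-v) (by rwa [norm_neg]) (by rw [map_neg, h6, neg_neg])))

lemma Good.iso {m : X} (h : Good m) (J : X →L[ℝ] X) (hJ : ∀ v, ‖J v‖ = ‖v‖)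
    (hJ2 : ∀ v, J (J v) = v) : Good (J m) := by
  intro ε hε
  obtain ⟨R, v₀, a1, a2, a3, a4, a5, a6⟩ := h ε hε
  refine ⟨J.comp (R.comp J), J v₀, fun v => ?_, by rwa [← map_sub, hJ], by rwa [hJ], ?_,
    fun v => ?_, fun v hv h => ?_⟩
  · change ‖J (R (J v)) - v‖ ≤ _
    rw [← hJ, map_sub, hJ2, ← hJ v]
    exact a1 _
  · change J (R (J (J v₀))) = _
    rw [hJ2, a4]
  · change ‖J (R (J v))‖ ≤ _
    rw [hJ, ← hJ v]; exact a5 _
  · change ‖J (R (J v))‖ = 1 at h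
    rw [hJ] at h
    rcases a6 (J v) (by rwa [hJ]) h with h1 | h1
    · left; rw [← h1, hJ2]
    · right; rw [← map_neg, ← h1, hJ2]

theorem univ_dom [FiniteDimensional ℝ X] (hG : ∀ m : X, ‖m‖ = 1 → Good m) (Z : Type u)
    [NormedAddCommGroup Z] [NormedSpace ℝ Z] : BPBASE X Z := by
  intro ε hε
  set e := min (ε / 5) (1 / 4) with he
  have he0 : 0 < e := lt_min (by positivity) (by norm_num)
  have he1 : e ≤ ε / 5 := min_le_left _ _
  have he2 : e ≤ 1 / 4 := min_le_right _ _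
  let Q : X → ℝ → Prop := fun x η => ∀ T : X →L[ℝ] Z, ‖T‖ = 1 → 1 - η < ‖T x‖ →
    ∃ S : X →L[ℝ] Z, IsASE S ∧ ∃ x₀ : X, ‖x₀‖ = 1 ∧ ‖S‖ = 1 ∧ ‖S x₀‖ = 1 ∧
      ‖S - T‖ < ε ∧ ‖x - x₀‖ < ε
  suffices H : ∃ η > 0, ∀ x ∈ sphere (0 : X) 1, Q x η by
    obtain ⟨η, hη, H⟩ := H
    exact ⟨min η (ε / 2), lt_min hη (half_pos hε), (min_le_right _ _).trans_lt (half_lt_self hε),
      fun T hT x hx h => H x (by simpa using hx) T hT (by linarith [min_le_left η (ε / 2)])⟩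
  refine (isCompact_sphere (0 : X) 1).induction_on (p := fun s => ∃ η > 0, ∀ x ∈ s, Q x η)
    ⟨1, one_pos, by simp⟩ (fun s t hst ⟨η, hη, H⟩ => ⟨η, hη, fun x hx => H x (hst hx)⟩)
    (fun s t ⟨η, hη, H⟩ ⟨η', hη', H'⟩ => ⟨min η η', lt_min hη hη', fun x hx T hT h => hx.elim
      (fun hx => H x hx T hT (by linarith [min_le_left η η']))
      (fun hx => H' x hx T hT (by linarith [min_le_right η η']))⟩) fun m hm => ?_
  have hm1 : ‖m‖ = 1 := by simpa using hm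
  obtain ⟨R, v₀, a1, a2, a3, a4, a5, a6⟩ := hG m hm1 e he0
  obtain ⟨γ, hγ, hgap⟩ : ∃ γ > 0, ∀ v, ‖v‖ = 1 → e ≤ ‖v - v₀‖ → e ≤ ‖v + v₀‖ → ‖R v‖ ≤ 1 - γ := by
    have hK : IsCompact (sphere (0 : X) 1 ∩ ({v | e ≤ ‖v - v₀‖} ∩ {v | e ≤ ‖v + v₀‖})) :=
      (isCompact_sphere 0 1).inter_right ((isClosed_le continuous_const (by fun_prop)).inter
        (isClosed_le continuous_const (by fun_prop)))
    obtain ⟨γ, hγ, h⟩ := hK.exists_forall_le' (f := fun v => 1 - ‖R v‖) (by fun_prop) (a := 0)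
      (fun v hv => by
        have hv1 : ‖v‖ = 1 := by simpa using hv.1
        refine sub_pos.2 (lt_of_le_of_ne (hv1 ▸ a5 v) fun h => ?_)
        have b1 : e ≤ ‖v - v₀‖ := hv.2.1
        have b2 : e ≤ ‖v + v₀‖ := hv.2.2
        rcases a6 v hv1 h with h1 | h1
        · rw [h1, sub_self, norm_zero] at b1; linarith
        · rw [h1, neg_add_cancel, norm_zero] at b2; linarith)
    exact ⟨γ, hγ, fun v hv b1 b2 => by linarith [h v ⟨by simpa using hv, b1, b2⟩]⟩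
  set r := min (γ / 2) e with hr
  have hr0 : 0 < r := lt_min (half_pos hγ) he0
  have hr1 : r ≤ γ / 2 := min_le_left _ _
  have hr2 : r ≤ e := min_le_right _ _
  refine ⟨ball m r, mem_nhdsWithin_of_mem_nhds (ball_mem_nhds m hr0), r, hr0, fun x hx T hT h => ?_⟩
  rw [mem_ball, dist_eq_norm] at hx
  have hTle : ∀ v, ‖T v‖ ≤ ‖v‖ := fun v => by simpa [hT] using T.le_opNorm v
  have hTm : 1 - 2 * r < ‖T m‖ := by
    have h1 := hTle (x - m)
    have h2 := norm_sub_norm_le (T x) (T m)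
    rw [map_sub] at h1
    linarith
  obtain ⟨u, hu, hu2⟩ : ∃ u : X, (‖u‖ = 1 ∧ ‖u - v₀‖ < e) ∧ ∀ v, ‖v‖ = 1 → ‖T (R v)‖ ≤ ‖T (R u)‖ := by
    obtain ⟨u, hu, hu2⟩ := (isCompact_sphere (0 : X) 1).exists_isMaxOn ⟨m, hm⟩
      (f := fun v => ‖T (R v)‖) (by fun_prop)
    have hu1 : ‖u‖ = 1 := by simpa using hu
    have h1 : ∀ v, ‖v‖ = 1 → ‖T (R v)‖ ≤ ‖T (R u)‖ := fun v hv => hu2 (by simpa using hv)
    have h2 := h1 v₀ a3
    rw [a4] at h2
    by_cases h3 : ‖u - v₀‖ < e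
    · exact ⟨u, ⟨hu1, h3⟩, h1⟩
    · refine ⟨-u, ⟨by rwa [norm_neg], ?_⟩, by simpa using h1⟩
      by_contra h4
      rw [← neg_add', norm_neg] at h4
      linarith [hgap u hu1 (not_lt.1 h3) (not_lt.1 h4), hTle (R u)]
  set a := ‖T (R u)‖ with ha
  have ha1 : 1 - 2 * e < a := by have := hu2 v₀ a3; rw [a4] at this; linarith
  have ha2 : a ≤ 1 := (hTle _).trans ((a5 u).trans hu.1.le)
  have ha0 : 0 < a := by linarith
  have hS1 : ∀ v, ‖T (R v)‖ ≤ a * ‖v‖ := by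
    intro v
    by_cases hv : v = 0
    · simp [hv]
    have hn : 0 < ‖v‖ := norm_pos_iff.2 hv
    have := hu2 (‖v‖⁻¹ • v) (by rw [norm_smul, norm_inv, norm_norm, inv_mul_cancel₀ hn.ne'])
    rw [map_smul, map_smul, norm_smul, norm_inv, norm_norm, inv_mul_le_iff₀ hn] at this
    linarith
  obtain ⟨R', v', b1, b2, b3, b4, b5, b6⟩ := hG u hu.1 e he0
  let S : X →L[ℝ] Z := a⁻¹ • T.comp (R.comp R')
  have hS : ∀ v, ‖S v‖ ≤ ‖R' v‖ := by
    intro v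
    change ‖a⁻¹ • T (R (R' v))‖ ≤ _
    rw [norm_smul, norm_inv, Real.norm_eq_abs, abs_of_pos ha0, inv_mul_le_iff₀ ha0]
    exact hS1 _
  have hSv : ‖S v'‖ = 1 := by
    change ‖a⁻¹ • T (R (R' v'))‖ = 1
    rw [norm_smul, norm_inv, Real.norm_eq_abs, abs_of_pos ha0, b4, inv_mul_cancel₀ ha0.ne']
  have hSn : ‖S‖ = 1 := by
    refine le_antisymm (S.opNorm_le_bound zero_le_one fun v => ?_) ?_
    · rw [one_mul]; exact (hS v).trans (b5 v)
    · simpa [hSv, b3] using S.le_opNorm v'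
  refine ⟨S, ⟨v', b3, fun y hy hl => ?_⟩, v', b3, hSn, hSv, ?_, ?_⟩
  · obtain ⟨w, hw, σ, hσ, hl2⟩ := (isCompact_closedBall (0 : X) 1).tendsto_subseq
      (x := y) fun n => by simpa using hy n
    have hw1 : ‖w‖ ≤ 1 := by simpa using hw
    have h1 : ‖S w‖ = 1 := hSn ▸ tendsto_nhds_unique
      ((S.continuous.tendsto w).comp hl2).norm (hl.comp hσ.tendsto_atTop)
    have h2 := hS w
    have h3 := b5 w
    rcases b6 w (by linarith) (by linarith) with h4 | h4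
    · exact ⟨σ, hσ, 1, abs_one, by rw [one_smul, ← h4]; exact hl2⟩
    · exact ⟨σ, hσ, -1, by simp, by rw [neg_one_smul, ← h4]; exact hl2⟩
  · refine lt_of_le_of_lt (ContinuousLinearMap.opNorm_le_bound _ (M := 4 * e) (by positivity)
      fun v => ?_) (by linarith)
    have e1 : (S - T) v = (1 - a) • S v + T (R (R' v - v)) + T (R v - v) := by
      change a⁻¹ • T (R (R' v)) - T v = (1 - a) • a⁻¹ • T (R (R' v)) + _ + _
      simp only [map_sub]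
      match_scalars <;> field_simp <;> ring
    rw [e1]
    have h1 := norm_add₃_le (a := (1 - a) • S v) (b := T (R (R' v - v))) (c := T (R v - v))
    rw [norm_smul, Real.norm_eq_abs, abs_of_nonneg (by linarith)] at h1
    have h2 := mul_le_mul (show 1 - a ≤ 2 * e by linarith) ((hS v).trans (b5 v)) (norm_nonneg _)
      (by positivity)
    linarith [(hTle _).trans ((a5 _).trans (b1 v)), (hTle _).trans (a1 v)]
  · have e1 : x - v' = (x - m) - (v₀ - m) - (u - v₀) - (v' - u) := by abel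
    rw [e1]
    have h1 := norm_sub_le ((x - m) - (v₀ - m) - (u - v₀)) (v' - u)
    have h2 := norm_sub_le ((x - m) - (v₀ - m)) (u - v₀)
    have h3 := norm_sub_le (x - m) (v₀ - m)
    linarith [hu.2]

end Pool.Agent.H.MP_78fc4b_an
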