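import Mathlib
import Pool.Agent.H.MP_78fc4b_an.A

namespace Pool.Agent.H.MP_78fc4b_an
open Filter Topology Metric Set

instance : Fact ((1 : ENNReal) ≤ 4) := ⟨by norm_num⟩

abbrev E4 := WithLp 4 (ℝ × ℝ)

noncomputable def nn (a b : ℝ) : ℝ := ‖(WithLp.toLp 4 (a, b) : E4)‖

lemma nn_nonneg (a b : ℝ) : 0 ≤ nn a b := norm_nonneg _

lemma nn_pow (a b : ℝ) : nn a b ^ 4 = a ^ 4 + b ^ 4 := by
  have h4 : (4 : ENNReal).toReal = ((4 : ℕ) : ℝ) := by norm_num
  unfold nn
  rw [WithLp.prod_norm_eq_add (by norm_num), h4, one_div, Real.rpow_natCast, Real.rpow_natCast,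
    Real.rpow_inv_natCast_pow (by positivity) four_ne_zero]
  simp [Even.pow_abs (by decide : Even 4)]

lemma nn_add (a b c d : ℝ) : nn (a + c) (b + d) ≤ nn a b + nn c d :=
  norm_add_le (WithLp.toLp 4 (a, b) : E4) (WithLp.toLp 4 (c, d))

lemma nn_cont (b : ℝ) : Continuous fun a => nn a b := by unfold nn; fun_prop

lemma le_nn (a b : ℝ) : |b| ≤ nn a b :=
  (pow_le_pow_iff_left₀ (abs_nonneg _) (nn_nonneg _ _) four_ne_zero).1 (by
    rw [nn_pow, Even.pow_abs (by decide)]; nlinarith [sq_nonneg (a ^ 2)])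

lemma le_nn' (a b : ℝ) : |a| ≤ nn a b :=
  (pow_le_pow_iff_left₀ (abs_nonneg _) (nn_nonneg _ _) four_ne_zero).1 (by
    rw [nn_pow, Even.pow_abs (by decide)]; nlinarith [sq_nonneg (b ^ 2)])

lemma nn_zero (b : ℝ) : nn 0 b = |b| :=
  (pow_left_inj₀ (nn_nonneg _ _) (abs_nonneg _) four_ne_zero).1 (by
    rw [nn_pow, Even.pow_abs (by decide)]; ring)

lemma nn_neg (a b : ℝ) : nn a (-b) = nn a b :=
  (pow_left_inj₀ (nn_nonneg _ _) (nn_nonneg _ _) four_ne_zero).1 (by rw [nn_pow, nn_pow]; ring)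

lemma nn_mul (c a b : ℝ) (hc : 0 ≤ c) : nn (c * a) (c * b) = c * nn a b :=
  (pow_left_inj₀ (nn_nonneg _ _) (mul_nonneg hc (nn_nonneg _ _)) four_ne_zero).1 (by
    rw [mul_pow, nn_pow, nn_pow]; ring)

lemma nn_up (a b c : ℝ) (hc : 0 < c) (hb : c ≤ b) : nn a b ≤ b + a ^ 4 / c ^ 3 := by
  have ha : 0 ≤ a ^ 4 / c ^ 3 := by positivity
  refine (pow_le_pow_iff_left₀ (nn_nonneg _ _) (by linarith) four_ne_zero).1 ?_
  have h1 : a ^ 4 = a ^ 4 / c ^ 3 * c ^ 3 := by field_simp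
  have h2 : c ^ 3 ≤ b ^ 3 := pow_le_pow_left₀ hc.le hb 3
  have hb0 : 0 < b := hc.trans_le hb
  set d := a ^ 4 / c ^ 3
  rw [nn_pow, h1]
  have h3 := mul_le_mul_of_nonneg_left h2 ha
  nlinarith [mul_nonneg ha (pow_nonneg hb0.le 3), mul_nonneg (sq_nonneg d) (sq_nonneg b),
    mul_nonneg (pow_nonneg ha 3) hb0.le, pow_nonneg ha 4]

lemma holder0 (a b x y : ℝ) : 4 * (nn a b * nn x y ^ 3) * (nn a b ^ 3 * nn x y - (a ^ 3 * x + b ^ 3 * y))
    = (a * nn x y - nn a b * x) ^ 2 * ((a * nn x y + nn a b * x) ^ 2 + 2 * (a * nn x y) ^ 2) +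
      (b * nn x y - nn a b * y) ^ 2 * ((b * nn x y + nn a b * y) ^ 2 + 2 * (b * nn x y) ^ 2) := by
  have h1 := nn_pow a b
  have h2 := nn_pow x y
  linear_combination (3 * nn x y ^ 4) * h1 + nn a b ^ 4 * h2

lemma holder (a b x y : ℝ) (h : 0 < nn a b) : a ^ 3 * x + b ^ 3 * y ≤ nn a b ^ 3 * nn x y := by
  rcases (nn_nonneg x y).eq_or_lt with h0 | h0
  · have h1 := le_nn x y
    have h2 := le_nn' x y
    rw [← h0] at h1 h2 ⊢
    simp [abs_nonpos_iff.1 h1, abs_nonpos_iff.1 h2]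
  · have h1 := holder0 a b x y
    have h2 : 0 < 4 * (nn a b * nn x y ^ 3) := by positivity
    exact sub_nonneg.1 (nonneg_of_mul_nonneg_right (h1 ▸ by positivity) h2 |> fun h => h)

lemma nn_strict {y t t' : ℝ} (hy : y ≠ 0) (h : nn y t + nn y t' ≤ nn (y + y) (t + t')) : t = t' := by
  have hp : ∀ s, 0 < nn y s := fun s => (abs_pos.2 hy).trans_le (le_nn' y s)
  have hC : 0 < nn (y + y) (t + t') := by linarith [hp t, hp t']
  have h1 := holder (y + y) (t + t') y t hC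
  have h2 := holder (y + y) (t + t') y t' hC
  have h3 := nn_pow (y + y) (t + t')
  have h4 := mul_le_mul_of_nonneg_left h (pow_pos hC 3).le
  have key : ∀ s, nn (y + y) (t + t') ^ 3 * nn y s = (y + y) ^ 3 * y + (t + t') ^ 3 * s →
      t + t' = 2 * s := by
    intro s hs
    have h5 := holder0 (y + y) (t + t') y s
    rw [hs, sub_self, mul_zero] at h5
    set A := nn y s
    set C := nn (y + y) (t + t')
    have hA := hp s
    have e1 : 0 ≤ ((y + y) * A - C * y) ^ 2 * (((y + y) * A + C * y) ^ 2 + 2 * ((y + y) * A) ^ 2) := by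
      positivity
    have e2 : 0 ≤ ((t + t') * A - C * s) ^ 2 *
        (((t + t') * A + C * s) ^ 2 + 2 * ((t + t') * A) ^ 2) := by positivity
    have hyA : 0 < ((y + y) * A) ^ 2 := by
      have : (y + y) * A ≠ 0 := mul_ne_zero (by rw [← two_mul]; positivity) hA.ne'
      positivity
    have e3 : (y + y) * A - C * y = 0 := by
      have := (mul_eq_zero.1 (le_antisymm (by linarith) e1)).resolve_right (by positivity)
      exact pow_eq_zero_iff two_ne_zero |>.1 this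
    have e4 : C = 2 * A := mul_right_cancel₀ hy (by linarith)
    rw [e4] at e2 h5
    rcases mul_eq_zero.1 (le_antisymm (by linarith) e2) with h6 | h6
    · exact mul_right_cancel₀ hA.ne' (by linarith [pow_eq_zero_iff two_ne_zero |>.1 h6])
    · have h7 : (t + t') * A = 0 := pow_eq_zero_iff two_ne_zero |>.1 (by
        nlinarith [sq_nonneg ((t + t') * A), sq_nonneg ((t + t') * A + 2 * A * s)])
      have h8 : (t + t') * A + 2 * A * s = 0 := pow_eq_zero_iff two_ne_zero |>.1 (by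
        nlinarith [sq_nonneg ((t + t') * A), sq_nonneg ((t + t') * A + 2 * A * s)])
      exact mul_right_cancel₀ hA.ne' (by linarith)
  have k1 := key t (by nlinarith)
  have k2 := key t' (by nlinarith)
  linarith

def XX : Type := ℝ × ℝ × ℝ

noncomputable instance : AddCommGroup XX := inferInstanceAs (AddCommGroup (ℝ × ℝ × ℝ))
noncomputable instance : Module ℝ XX := inferInstanceAs (Module ℝ (ℝ × ℝ × ℝ))
instance : FiniteDimensional ℝ XX := inferInstanceAs (FiniteDimensional ℝ (ℝ × ℝ × ℝ))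

def mk (p q y : ℝ) : XX := (p, q, y)

noncomputable def io : XX →ₗ[ℝ] WithLp 2 (ℝ × WithLp 1 (E4 × E4)) where
  toFun v := WithLp.toLp 2 (v.2.2, WithLp.toLp 1 (WithLp.toLp 4 (v.2.2, v.1), WithLp.toLp 4 (v.2.2, v.2.1)))
  map_add' _ _ := rfl
  map_smul' _ _ := rfl

lemma io_inj : Function.Injective io := by
  intro v w h
  have h1 : v.2.2 = w.2.2 := congrArg (fun z => z.ofLp.1) h
  have h2 : v.1 = w.1 := congrArg (fun z => z.ofLp.2.ofLp.1.ofLp.2) h
  have h3 : v.2.1 = w.2.1 := congrArg (fun z => z.ofLp.2.ofLp.2.ofLp.2) h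
  exact Prod.ext h2 (Prod.ext h3 h1)

noncomputable instance : NormedAddCommGroup XX := NormedAddCommGroup.induced XX _ io io_inj
noncomputable instance : NormedSpace ℝ XX := NormedSpace.induced ℝ XX _ io

noncomputable def cp : XX →L[ℝ] ℝ := LinearMap.toContinuousLinearMap
  { toFun := fun v => v.1, map_add' := fun _ _ => rfl, map_smul' := fun _ _ => rfl }
noncomputable def cq : XX →L[ℝ] ℝ := LinearMap.toContinuousLinearMap
  { toFun := fun v => v.2.1, map_add' := fun _ _ => rfl, map_smul' := fun _ _ => rfl }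
noncomputable def cy : XX →L[ℝ] ℝ := LinearMap.toContinuousLinearMap
  { toFun := fun v => v.2.2, map_add' := fun _ _ => rfl, map_smul' := fun _ _ => rfl }

@[simp] lemma cp_mk (p q y : ℝ) : cp (mk p q y) = p := rfl
@[simp] lemma cq_mk (p q y : ℝ) : cq (mk p q y) = q := rfl
@[simp] lemma cy_mk (p q y : ℝ) : cy (mk p q y) = y := rfl

lemma ext3 {v w : XX} (h1 : cp v = cp w) (h2 : cq v = cq w) (h3 : cy v = cy w) : v = w :=
  Prod.ext h1 (Prod.ext h2 h3)

lemma nsq (v : XX) : ‖v‖ ^ 2 = cy v ^ 2 + (nn (cy v) (cp v) + nn (cy v) (cq v)) ^ 2 := by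
  change ‖io v‖ ^ 2 = _
  rw [WithLp.prod_norm_sq_eq_of_L2, WithLp.prod_norm_eq_of_L1, Real.norm_eq_abs, sq_abs]
  rfl

lemma M_le (v : XX) : nn (cy v) (cp v) + nn (cy v) (cq v) ≤ ‖v‖ :=
  (pow_le_pow_iff_left₀ (add_nonneg (nn_nonneg _ _) (nn_nonneg _ _)) (norm_nonneg _) two_ne_zero).1
    (by rw [nsq]; nlinarith [sq_nonneg (cy v)])

lemma pq_le (v : XX) : |cp v| + |cq v| ≤ ‖v‖ := by
  linarith [M_le v, le_nn (cy v) (cp v), le_nn (cy v) (cq v)]

lemma norm_flat (v : XX) (h : cy v = 0) : ‖v‖ = |cp v| + |cq v| :=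
  (pow_left_inj₀ (norm_nonneg _) (by positivity) two_ne_zero).1 (by
    rw [nsq, h, nn_zero, nn_zero]; ring)

lemma rotund {m v : XX} (hm : ‖m‖ = 1) (hv : ‖v‖ = 1) (hy : cy m ≠ 0) (h : 2 ≤ ‖m + v‖) : v = m := by
  have h1 := nsq m
  have h2 := nsq v
  have h3 := nsq (m + v)
  have h4 : (2 : ℝ) ^ 2 ≤ ‖m + v‖ ^ 2 := pow_le_pow_left₀ (by norm_num) h 2
  simp only [map_add] at h3
  rw [hm] at h1
  rw [hv] at h2
  have a1 := nn_add (cy m) (cp m) (cy v) (cp v)
  have a2 := nn_add (cy m) (cq m) (cy v) (cq v)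
  have b1 := nn_nonneg (cy m + cy v) (cp m + cp v)
  have b2 := nn_nonneg (cy m + cy v) (cq m + cq v)
  set C := nn (cy m + cy v) (cp m + cp v) + nn (cy m + cy v) (cq m + cq v) with hC
  set M := nn (cy m) (cp m) + nn (cy m) (cq m) with hM
  set M' := nn (cy v) (cp v) + nn (cy v) (cq v) with hM'
  have c1 : C ^ 2 ≤ (M + M') ^ 2 := pow_le_pow_left₀ (by linarith) (by linarith) 2
  have e1 : cy v = cy m := by
    have : (cy v - cy m) ^ 2 = 0 := le_antisymm (by nlinarith [sq_nonneg (M - M')]) (sq_nonneg _)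
    linarith [pow_eq_zero_iff two_ne_zero |>.1 this]
  have c2 : M + M' ≤ C := (pow_le_pow_iff_left₀ (by linarith) (by linarith) two_ne_zero).1 (by
    nlinarith [sq_nonneg (M - M'), sq_nonneg (cy v - cy m)])
  rw [e1] at a1 a2 hC hM'
  exact ext3 (nn_strict hy (by linarith)).symm (nn_strict hy (by linarith)).symm e1

lemma good_rot {m : XX} (hm : ‖m‖ = 1) (hy : cy m ≠ 0) : Good m := by
  obtain ⟨φ, h1, h2⟩ := exists_dual_vector ℝ m (by rw [hm]; norm_num)
  have h3 : ∀ v, |φ v| ≤ ‖v‖ := fun v => by simpa [h1] using φ.le_opNorm v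
  rw [hm] at h2
  replace h2 : φ m = 1 := h2
  refine good_exp hm φ h3 h2 fun v hv h => rotund hm hv hy ?_
  have := (le_abs_self _).trans (h3 (m + v))
  rw [map_add, h2, h] at this
  linarith

lemma y_zero {v : XX} (hv : ‖v‖ = 1) (h : 1 ≤ |cp v| + |cq v|) : cy v = 0 := by
  have h1 := nsq v
  have h2 : 1 ≤ nn (cy v) (cp v) + nn (cy v) (cq v) := by
    linarith [le_nn (cy v) (cp v), le_nn (cy v) (cq v)]
  rw [hv] at h1
  exact pow_eq_zero_iff two_ne_zero |>.1 (le_antisymm (by nlinarith) (sq_nonneg _))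

lemma good_v1 : Good (mk 1 0 0) := by
  refine good_exp (by rw [norm_flat _ rfl]; simp) cp
    (fun v => by linarith [pq_le v, abs_nonneg (cq v)]) rfl fun v hv h => ?_
  have h1 := pq_le v
  rw [h, hv, abs_one] at h1
  exact ext3 h (abs_nonpos_iff.1 (by linarith)) (y_zero hv (by rw [h]; simp))

lemma good_v2 : Good (mk 0 1 0) := by
  refine good_exp (by rw [norm_flat _ rfl]; simp) cq
    (fun v => by linarith [pq_le v, abs_nonneg (cp v)]) rfl fun v hv h => ?_
  have h1 := pq_le v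
  rw [h, hv, abs_one] at h1
  exact ext3 (abs_nonpos_iff.1 (by linarith)) h (y_zero hv (by rw [h]; simp))

noncomputable def fl (σ τ : ℝ) : XX →L[ℝ] XX := LinearMap.toContinuousLinearMap
  { toFun := fun v => mk (σ * cp v) (τ * cq v) (cy v)
    map_add' := fun _ _ => ext3 (by simp [mul_add]) (by simp [mul_add]) (by simp)
    map_smul' := fun _ _ => ext3 (by simp [mul_left_comm]) (by simp [mul_left_comm]) (by simp) }

lemma good_fl {σ τ : ℝ} (hσ : σ = 1 ∨ σ = -1) (hτ : τ = 1 ∨ τ = -1) {p q : ℝ}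
    (h : Good (mk p q 0)) : Good (mk (σ * p) (τ * q) 0) := by
  refine h.iso (fl σ τ) (fun v => ?_) fun v => ?_
  · refine (pow_left_inj₀ (norm_nonneg _) (norm_nonneg _) two_ne_zero).1 ?_
    rw [nsq, nsq]
    change cy v ^ 2 + (nn (cy v) (σ * cp v) + nn (cy v) (τ * cq v)) ^ 2 = _
    rcases hσ with rfl | rfl <;> rcases hτ with rfl | rfl <;> simp [nn_neg]
  · refine ext3 ?_ ?_ rfl
    · change σ * (σ * cp v) = _
      rcases hσ with rfl | rfl <;> simp
    · change τ * (τ * cq v) = _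
      rcases hτ with rfl | rfl <;> simp

end Pool.Agent.H.MP_78fc4b_an
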