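import Mathlib
import Pool.Agent.H.MP_78fc4b_an.B

namespace Pool.Agent.H.MP_78fc4b_an
open Filter Topology Metric Set

lemma nn_neg2 (a b : ℝ) : nn (-a) (-b) = nn a b :=
  (pow_left_inj₀ (nn_nonneg _ _) (nn_nonneg _ _) four_ne_zero).1 (by rw [nn_pow, nn_pow]; ring)

noncomputable def ell (u : XX) : XX →L[ℝ] ℝ :=
  (nn (cy u) (cp u) ^ 3)⁻¹ • (cy u ^ 3 • cy + cp u ^ 3 • cp) +
    (nn (cy u) (cq u) ^ 3)⁻¹ • (cy u ^ 3 • cy + cq u ^ 3 • cq)

noncomputable def gg (u : XX) : XX →L[ℝ] ℝ :=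
  cy u • cy + (nn (cy u) (cp u) + nn (cy u) (cq u)) • ell u

lemma ell_apply (u v : XX) : ell u v = (nn (cy u) (cp u) ^ 3)⁻¹ * (cy u ^ 3 * cy v + cp u ^ 3 * cp v) +
    (nn (cy u) (cq u) ^ 3)⁻¹ * (cy u ^ 3 * cy v + cq u ^ 3 * cq v) := rfl

lemma gg_apply (u v : XX) :
    gg u v = cy u * cy v + (nn (cy u) (cp u) + nn (cy u) (cq u)) * ell u v := rfl

lemma ell_le {u : XX} (hy : cy u ≠ 0) (v : XX) : ell u v ≤ nn (cy v) (cp v) + nn (cy v) (cq v) := by
  have hp : ∀ s, 0 < nn (cy u) s := fun s => (abs_pos.2 hy).trans_le (le_nn' _ s)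
  rw [ell_apply]
  refine add_le_add ?_ ?_ <;> rw [inv_mul_le_iff₀ (pow_pos (hp _) 3)] <;> exact holder _ _ _ _ (hp _)

lemma ell_sq {u : XX} (hy : cy u ≠ 0) (v : XX) : cy v ^ 2 + ell u v ^ 2 ≤ ‖v‖ ^ 2 := by
  have h1 := ell_le hy v
  have h2 := ell_le hy (-v)
  simp only [map_neg, nn_neg2] at h2
  rw [nsq]
  nlinarith

lemma gg_self {u : XX} (hu : ‖u‖ = 1) (hy : cy u ≠ 0) : gg u u = 1 := by
  have hp : ∀ s, 0 < nn (cy u) s := fun s => (abs_pos.2 hy).trans_le (le_nn' _ s)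
  have e : ∀ s, (nn (cy u) s ^ 3)⁻¹ * (cy u ^ 3 * cy u + s ^ 3 * s) = nn (cy u) s := fun s => by
    rw [inv_mul_eq_iff_eq_mul₀ (pow_pos (hp _) 3).ne']
    linear_combination -nn_pow (cy u) s
  have h := nsq u
  rw [gg_apply, ell_apply, e, e]
  rw [hu] at h
  linear_combination -h

lemma gg_sq {u : XX} (hu : ‖u‖ = 1) (hy : cy u ≠ 0) (v : XX) :
    gg u v ^ 2 + (cy v - gg u v * cy u) ^ 2 ≤ ‖v‖ ^ 2 := by
  have h := nsq u
  have h1 := ell_sq hy v
  rw [hu] at h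
  rw [gg_apply]
  set μ := nn (cy u) (cp u) + nn (cy u) (cq u)
  set l := ell u v
  set a := cy u
  set y := cy v
  have e1 : y - (a * y + μ * l) * a = μ * (y * μ - l * a) := by linear_combination y * h
  have e2 : (a * y + μ * l) ^ 2 + (y * μ - l * a) ^ 2 = y ^ 2 + l ^ 2 := by
    linear_combination -(y ^ 2 + l ^ 2) * h
  have e3 : μ ^ 2 ≤ 1 := by nlinarith [sq_nonneg a]
  rw [e1, mul_pow]
  nlinarith [mul_le_mul_of_nonneg_right e3 (sq_nonneg (y * μ - l * a))]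

lemma fin1 {δ g Y N : ℝ} (hδ : 0 < δ) (hδ1 : δ ≤ 1 / 2) (b6 : g ≤ 1) (b7 : 0 ≤ g)
    (h3 : g ^ 2 + Y ^ 2 ≤ 1) (hN : 0 ≤ N) (h : N ^ 2 ≤ ((1 - δ) * Y) ^ 2 + (g + δ / 6 * Y ^ 2) ^ 2) :
    N ≤ 1 ∧ (N = 1 → g = 1) := by
  have hd : 0 ≤ δ * Y ^ 2 := by positivity
  have c2 : N ^ 2 ≤ g ^ 2 + (1 - δ / 2) * Y ^ 2 := by
    have hd1 : δ * Y ^ 2 ≤ 1 := by nlinarith
    nlinarith [mul_le_mul_of_nonneg_left b6 hd, mul_le_mul_of_nonneg_left hd1 hd,
      mul_le_mul_of_nonneg_left hδ1 hd]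
  refine ⟨(pow_le_pow_iff_left₀ hN zero_le_one two_ne_zero).1 (by nlinarith), fun h => ?_⟩
  rw [h] at c2
  have c3 : Y ^ 2 = 0 := le_antisymm (nonpos_of_mul_nonpos_right (by nlinarith) hδ) (sq_nonneg _)
  rw [c3] at c2
  nlinarith

lemma core {p0 q0 δ c : ℝ} (hpq : p0 + q0 = 1) (hδ : 0 < δ) (hδ1 : δ ≤ 1 / 2) (hc : 0 < c)
    (hc1 : 4 * c ≤ δ * p0) (hc2 : 4 * c ≤ δ * q0) {v z : XX} {g Y : ℝ} (hv : ‖v‖ = 1)
    (hz : ‖z - ((1 - δ) • v + (δ * (cp v + cq v)) • mk p0 q0 0)‖ ≤ δ * (δ * c ^ 3 / 48) / 2)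
    (h1 : cp z + cq z = g) (h2 : cy z = (1 - δ) * Y) (h3 : g ^ 2 + Y ^ 2 ≤ 1)
    (h4 : 0 ≤ cp v + cq v) : ‖z‖ ≤ 1 ∧ (‖z‖ = 1 → g = 1) := by
  set θ := δ * c ^ 3 / 48 with hθ
  have hp0 : 0 < p0 := (mul_pos_iff_of_pos_left hδ).1 (by linarith)
  have hq0 : 0 < q0 := (mul_pos_iff_of_pos_left hδ).1 (by linarith)
  have hc3 : c ≤ 1 / 8 := by nlinarith
  have hθ0 : 0 < θ := by positivity
  have hθ1 : θ ≤ c := by
    have : c ^ 3 ≤ c := by nlinarith [mul_pos hc hc]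
    have : δ * c ^ 3 ≤ 1 * c := mul_le_mul (by linarith) this (by positivity) zero_le_one
    linarith
  have hδθ : δ * θ ≤ θ := by nlinarith
  have hδθ0 : 0 < δ * θ := by positivity
  have hm : ‖mk p0 q0 0‖ = 1 := by
    rw [norm_flat _ rfl, cp_mk, cq_mk, abs_of_pos hp0, abs_of_pos hq0, hpq]
  have hpv := pq_le v
  rw [hv] at hpv
  set w := (1 - δ) • v + (δ * (cp v + cq v)) • mk p0 q0 0 with hw
  by_cases hf : cp v + cq v ≤ 1 - θ
  · have a1 : ‖w‖ ≤ 1 - δ * θ := by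
      refine (norm_add_le _ _).trans ?_
      rw [norm_smul, norm_smul, hv, hm, Real.norm_eq_abs, Real.norm_eq_abs,
        abs_of_nonneg (by linarith), abs_of_nonneg (by positivity)]
      nlinarith
    have a2 : ‖z‖ < 1 := by linarith [norm_le_norm_add_norm_sub' z w]
    exact ⟨a2.le, fun h => absurd h a2.ne⟩
  push Not at hf
  have b0 := (pq_le (z - w)).trans hz
  rw [map_sub, map_sub] at b0
  have wp : cp w = (1 - δ) * cp v + δ * (cp v + cq v) * p0 := by simp [hw]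
  have wq : cq w = (1 - δ) * cq v + δ * (cp v + cq v) * q0 := by simp [hw]
  have b1 : -θ ≤ cp v := by linarith [le_abs_self (cq v), abs_nonneg (cp v)]
  have b2 : -θ ≤ cq v := by linarith [le_abs_self (cp v), abs_nonneg (cq v)]
  have hf2 : 7 / 8 ≤ cp v + cq v := by linarith
  have b3 : c ≤ cp z := by
    have := mul_le_mul_of_nonneg_left hf2 (show 0 ≤ δ * p0 by positivity)
    nlinarith [neg_abs_le (cp z - cp w), abs_nonneg (cq z - cq w)]
  have b4 : c ≤ cq z := by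
    have := mul_le_mul_of_nonneg_left hf2 (show 0 ≤ δ * q0 by positivity)
    nlinarith [neg_abs_le (cq z - cq w), abs_nonneg (cp z - cp w)]
  have b5 : 1 - 2 * θ ≤ g := by
    have : cp w + cq w = cp v + cq v := by rw [wp, wq]; linear_combination δ * (cp v + cq v) * hpq
    linarith [neg_abs_le (cq z - cq w), neg_abs_le (cp z - cp w)]
  have b6 : g ≤ 1 := by nlinarith [sq_nonneg Y]
  have b7 : Y ^ 2 ≤ 4 * θ := by nlinarith
  have b8 : cy z ^ 4 / c ^ 3 ≤ δ / 12 * Y ^ 2 := by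
    rw [div_le_iff₀ (by positivity), h2, mul_pow]
    have e1 : (1 - δ) ^ 4 ≤ 1 := pow_le_one₀ (by linarith) (by linarith)
    have e2 := mul_le_mul_of_nonneg_right e1 (show 0 ≤ Y ^ 4 by positivity)
    have e3 := mul_le_mul_of_nonneg_right b7 (sq_nonneg Y)
    nlinarith
  have b9 : nn (cy z) (cp z) + nn (cy z) (cq z) ≤ g + δ / 6 * Y ^ 2 := by
    linarith [nn_up (cy z) _ c hc b3, nn_up (cy z) _ c hc b4]
  have c1 := pow_le_pow_left₀ (add_nonneg (nn_nonneg _ _) (nn_nonneg _ _)) b9 2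
  have c2 := fin1 hδ hδ1 b6 (by linarith) h3 (N := ‖z‖) (norm_nonneg _) (by
    rw [nsq, ← h2]; exact add_le_add le_rfl c1)
  exact c2

theorem good_seg {p0 q0 : ℝ} (hp : 0 < p0) (hq : 0 < q0) (hpq : p0 + q0 = 1) :
    Good (mk p0 q0 0) := by
  intro ε hε
  set m := mk p0 q0 0 with hmm
  have hm : ‖m‖ = 1 := by
    rw [norm_flat _ rfl, cp_mk, cq_mk, abs_of_pos hp, abs_of_pos hq, hpq]
  set δ := min (ε / 3) (1 / 2) with hδ
  have hδ0 : 0 < δ := lt_min (by positivity) (by norm_num)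
  have hδ1 : δ ≤ 1 / 2 := min_le_right _ _
  have hδ2 : δ ≤ ε / 3 := min_le_left _ _
  set c := δ * min p0 q0 / 4 with hc
  have hc0 : 0 < c := by have := lt_min hp hq; positivity
  have hc1 : 4 * c ≤ δ * p0 := by nlinarith [min_le_left p0 q0]
  have hc2 : 4 * c ≤ δ * q0 := by nlinarith [min_le_right p0 q0]
  set η := min (δ * (δ * c ^ 3 / 48) / 4) (ε / 6) with hη
  have hη0 : 0 < η := lt_min (by positivity) (by positivity)
  have hη1 : η ≤ δ * (δ * c ^ 3 / 48) / 4 := min_le_left _ _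
  have hη2 : η ≤ ε / 6 := min_le_right _ _
  set f : XX →L[ℝ] ℝ := cp + cq with hf
  have hfm : f m = 1 := hpq
  have hfl : ∀ v, |f v| ≤ ‖v‖ := fun v => (abs_add_le _ _).trans (pq_le v)
  let U : ℝ → XX := fun ρ => ‖m + ρ • mk 0 0 1‖⁻¹ • (m + ρ • mk 0 0 1)
  have hU0 : U 0 = m := by simp [U, hm]
  have hn : ContinuousAt (fun ρ : ℝ => ‖m + ρ • mk 0 0 1‖) 0 := by fun_prop
  have hU : ContinuousAt U 0 := (hn.inv₀ (by simp [hm])).smul (by fun_prop)
  have n1 : nn (cy m) (cp m) = p0 := by rw [hmm, cy_mk, cp_mk, nn_zero, abs_of_pos hp]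
  have n2 : nn (cy m) (cq m) = q0 := by rw [hmm, cy_mk, cq_mk, nn_zero, abs_of_pos hq]
  have hg : ContinuousAt gg m := by
    have k1 : Continuous fun u : XX => nn (cy u) (cp u) := by unfold nn; fun_prop
    have k2 : Continuous fun u : XX => nn (cy u) (cq u) := by unfold nn; fun_prop
    have k3 : ContinuousAt (fun u : XX => (nn (cy u) (cp u) ^ 3)⁻¹) m :=
      (k1.pow 3).continuousAt.inv₀ (by change nn _ _ ^ 3 ≠ 0; rw [n1]; positivity)
    have k4 : ContinuousAt (fun u : XX => (nn (cy u) (cq u) ^ 3)⁻¹) m :=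
      (k2.pow 3).continuousAt.inv₀ (by change nn _ _ ^ 3 ≠ 0; rw [n2]; positivity)
    have k5 : ContinuousAt ell m := (k3.smul (by fun_prop)).add (k4.smul (by fun_prop))
    exact ContinuousAt.add (by fun_prop) ((k1.add k2).continuousAt.smul k5)
  have hgm : gg m = f := by
    ext v
    rw [gg_apply, ell_apply, n1, n2, hpq]
    simp only [hmm, cy_mk, cp_mk, cq_mk, hf, ContinuousLinearMap.add_apply]
    field_simp
    ring
  have t1 : ∀ᶠ ρ in 𝓝 (0 : ℝ), dist (gg (U ρ)) (gg (U 0)) < η :=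
    Metric.tendsto_nhds.1 (ContinuousAt.comp (hU0 ▸ hg) hU) η hη0
  have t2 : ∀ᶠ ρ in 𝓝 (0 : ℝ), dist (U ρ) (U 0) < η / 2 := Metric.tendsto_nhds.1 hU _ (half_pos hη0)
  obtain ⟨ρ, ⟨r1, r2⟩, r3⟩ := (((t1.and t2).filter_mono nhdsWithin_le_nhds).and
    (self_mem_nhdsWithin (s := {(0 : ℝ)}ᶜ))).exists
  have r4 : m + ρ • mk 0 0 1 ≠ 0 := fun h => r3 (by simpa [hmm] using congrArg cy h)
  have hu : ‖U ρ‖ = 1 := norm_smul_inv_norm r4
  have hy : cy (U ρ) ≠ 0 := by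
    have : ρ ≠ 0 := r3
    simpa [U, hmm, this] using r4
  rw [hU0, dist_eq_norm] at r1 r2
  rw [hgm] at r1
  set u := U ρ
  set g := gg u
  have g1 : ∀ v, |g v| ≤ ‖v‖ := fun v => abs_le_of_sq_le_sq' (by
    nlinarith [gg_sq hu hy v, sq_nonneg (cy v - g v * cy u)]) (norm_nonneg _) |> abs_le.2
  have g2 : g u = 1 := gg_self hu hy
  set R : XX →L[ℝ] XX := g.smulRight m + (1 - δ) • ((ContinuousLinearMap.id ℝ XX - f.smulRight m).comp
    (ContinuousLinearMap.id ℝ XX - g.smulRight u)) with hR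
  have R1 : ∀ v, R v = g v • m + (1 - δ) • (v - g v • u - f (v - g v • u) • m) := fun v => rfl
  have R2 : ∀ v, ‖R v - ((1 - δ) • v + (δ * f v) • m)‖ ≤ 2 * η * ‖v‖ := by
    intro v
    have e : R v - ((1 - δ) • v + (δ * f v) • m) =
        (g - f) v • m + ((1 - δ) * g v) • (f (u - m) • m - (u - m)) := by
      rw [R1]
      simp only [map_sub, map_smul, hfm, smul_eq_mul, ContinuousLinearMap.sub_apply]
      module
    have e1 : ‖(g - f) v‖ ≤ η * ‖v‖ := (g - f).le_of_opNorm_le r1.le v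
    have e2 : ‖f (u - m) • m - (u - m)‖ ≤ η := by
      refine (norm_sub_le _ _).trans ?_
      rw [norm_smul, hm, Real.norm_eq_abs]
      linarith [hfl (u - m)]
    have e3 : |(1 - δ) * g v| ≤ ‖v‖ := by
      rw [abs_mul, abs_of_nonneg (by linarith)]
      nlinarith [g1 v, abs_nonneg (g v)]
    rw [e]
    refine (norm_add_le _ _).trans ?_
    rw [norm_smul, norm_smul, hm, Real.norm_eq_abs ((1 - δ) * g v)]
    nlinarith [mul_le_mul e3 e2 (norm_nonneg _) (norm_nonneg _)]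
  have key : ∀ v, ‖v‖ = 1 → 0 ≤ f v → ‖R v‖ ≤ 1 ∧ (‖R v‖ = 1 → v = u) := by
    intro v hv h
    have k := core (z := R v) (g := g v) (Y := cy v - g v * cy u) hpq hδ0 hδ1 hc0 hc1 hc2 hv
      ((R2 v).trans (by rw [hv]; linarith)) ?_ ?_ ((gg_sq hu hy v).trans (by rw [hv]; norm_num)) h
    · refine ⟨k.1, fun h1 => rotund hu hv hy ?_⟩
      have := (le_abs_self _).trans (g1 (u + v))
      rw [map_add, g2, k.2 h1] at this
      linarith
    · change f (R v) = _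
      rw [R1, map_add, map_smul, map_smul, map_sub _ (v - _), map_smul, hfm]
      simp
    · rw [R1]
      simp [hmm]
  have key2 : ∀ v, ‖v‖ = 1 → ‖R v‖ ≤ 1 ∧ (‖R v‖ = 1 → v = u ∨ v = -u) := by
    intro v hv
    rcases le_total 0 (f v) with h | h
    · exact ⟨(key v hv h).1, fun h1 => Or.inl ((key v hv h).2 h1)⟩
    · have k := key (-v) (by rwa [norm_neg]) (by rw [map_neg]; linarith)
      rw [map_neg, norm_neg] at k
      exact ⟨k.1, fun h1 => Or.inr (neg_eq_iff_eq_neg.1 (k.2 h1))⟩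
  refine ⟨R, u, fun v => ?_, by linarith, hu, by rw [R1, g2]; simp, fun v => ?_,
    fun v hv => (key2 v hv).2⟩
  · have e : (1 - δ) • v + (δ * f v) • m - v = δ • (f v • m - v) := by module
    have e1 : ‖(1 - δ) • v + (δ * f v) • m - v‖ ≤ δ * (2 * ‖v‖) := by
      rw [e, norm_smul, Real.norm_eq_abs, abs_of_pos hδ0]
      refine mul_le_mul_of_nonneg_left ((norm_sub_le _ _).trans ?_) hδ0.le
      rw [norm_smul, hm, Real.norm_eq_abs]
      linarith [hfl v]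
    have e2 := norm_sub_le_norm_sub_add_norm_sub (R v) ((1 - δ) • v + (δ * f v) • m) v
    nlinarith [R2 v, norm_nonneg v]
  · have := R.opNorm_le_of_unit_norm zero_le_one fun v hv => (key2 v hv).1
    simpa using R.le_of_opNorm_le this v

theorem all_good (m : XX) (hm : ‖m‖ = 1) : Good m := by
  by_cases hy : cy m = 0
  swap
  · exact good_rot hm hy
  rw [norm_flat m hy] at hm
  have h : Good (mk |cp m| |cq m| 0) := by
    rcases (abs_nonneg (cp m)).eq_or_lt with h1 | h1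
    · rw [← h1, show |cq m| = 1 by linarith]; exact good_v2
    rcases (abs_nonneg (cq m)).eq_or_lt with h2 | h2
    · rw [← h2, show |cp m| = 1 by linarith]; exact good_v1
    exact good_seg h1 h2 hm
  have s : ∀ a : ℝ, ∃ σ : ℝ, (σ = 1 ∨ σ = -1) ∧ σ * |a| = a := fun a => by
    rcases le_total 0 a with h | h
    · exact ⟨1, Or.inl rfl, by rw [one_mul, abs_of_nonneg h]⟩
    · exact ⟨-1, Or.inr rfl, by rw [abs_of_nonpos h]; ring⟩
  obtain ⟨σ, s1, s2⟩ := s (cp m)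
  obtain ⟨τ, s3, s4⟩ := s (cq m)
  have := good_fl s1 s3 h
  rwa [s2, s4, show mk (cp m) (cq m) 0 = m from ext3 rfl rfl hy.symm] at this

lemma not_uc : ¬ UC XX := by
  intro h
  obtain ⟨δ, h0, -, h⟩ := h 1 one_pos
  have := h (mk 1 0 0) (mk 0 1 0) (by rw [norm_flat _ rfl]; simp) (by rw [norm_flat _ rfl]; simp)
    (by rw [norm_flat _ (by simp)]; simp; linarith)
  rw [norm_flat _ (by simp)] at this
  simp at this
  linarith

end Pool.Agent.H.MP_78fc4b_an
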